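import Pool.Agent.H6.CM.Defs
import Pool.Agent.H6.CP.Perp
import Pool.Agent.H6.CP.Supp

set_option autoImplicit false

/-!
# From homogeneous bases to graded vector spaces
-/

namespace Pool.Agent.H6.CM

open Matrix

variable {K : Type} [Field K]

namespace Theory

variable (W : Theory K)

/-- the vectors of degree `i` -/
def gr (X : W.Var) (i : ℤ) : Submodule K (Fin (W.rk X) → K) where
  carrier := {x | ∀ a, x a ≠ 0 → (W.deg X a : ℤ) = i}
  zero_mem' := by intro a h; exact absurd rfl h
  add_mem' := by
    intro x y hx hy a h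
    by_cases h1 : x a = 0
    · refine hy a ?_
      intro h2
      exact h (by simp [h1, h2])
    · exact hx a h1
  smul_mem' := by
    intro c x hx a h
    refine hx a ?_
    intro h2
    exact h (by simp [h2])

theorem mem_gr {X : W.Var} {i : ℤ} {x : Fin (W.rk X) → K} :
    x ∈ W.gr X i ↔ ∀ a, x a ≠ 0 → (W.deg X a : ℤ) = i := Iff.rfl

theorem mem_gr_nat {X : W.Var} {i : ℕ} {x : Fin (W.rk X) → K} :
    x ∈ W.gr X i ↔ W.Hom X i x := by
  rw [mem_gr, Hom]
  simp only [Nat.cast_inj]

theorem single_mem {X : W.Var} (a : Fin (W.rk X)) (c : K) :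
    Pi.single a c ∈ W.gr X (W.deg X a) := by
  intro b h
  by_cases h1 : b = a
  · rw [h1]
  · refine absurd ?_ h
    exact Pi.single_eq_of_ne (M := fun _ => K) h1 c

theorem gr_internal (X : W.Var) : DirectSum.IsInternal (W.gr X) := by
  apply DirectSum.isInternal_submodule_of_iSupIndep_of_iSup_eq_top
  · intro i
    rw [Submodule.disjoint_def]
    intro x hx hx'
    have h1 : (⨆ j, ⨆ (_ : j ≠ i), W.gr X j) ≤
        ({ carrier := {x | ∀ a, (W.deg X a : ℤ) = i → x a = 0}
           zero_mem' := fun a _ => rfl
           add_mem' := fun {x y} hx hy a h => by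
            show x a + y a = 0
            rw [hx a h, hy a h, add_zero]
           smul_mem' := fun c x hx a h => by
            show c * x a = 0
            rw [hx a h, mul_zero] } : Submodule K (Fin (W.rk X) → K)) := by
      refine iSup_le fun j => iSup_le fun hj => ?_
      intro y hy a ha
      by_contra h
      exact hj ((hy a h).symm.trans ha)
    have h2 := h1 hx'
    funext a
    by_contra h
    exact h (h2 a (hx a h))
  · rw [eq_top_iff]
    intro x _
    have h1 : x = ∑ a, Pi.single a (x a) := by
      exact (Finset.univ_sum_single x).symm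
    rw [h1]
    exact Submodule.sum_mem _ fun a _ =>
      (le_iSup (W.gr X) (W.deg X a : ℤ)) (W.single_mem a (x a))

/-- the theory of graded vector spaces -/
def toTheory : CP.Theory K where
  Var := W.Var
  dim := W.dim
  V X := Fin (W.rk X) → K
  gr := W.gr
  internal := W.gr_internal
  bounded X i h := by
    rw [eq_bot_iff]
    intro x hx
    rw [Submodule.mem_bot]
    funext a
    by_contra h1
    have h2 := hx a h1
    have h3 := W.deg_le X a
    omega
  pair X := Matrix.toLinearMap₂' K (W.P X)
  pair_deg X i j h x hx y hy := by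
    rw [Matrix.toLinearMap₂'_apply]
    refine Finset.sum_eq_zero fun a _ => Finset.sum_eq_zero fun b _ => ?_
    by_contra h1
    have ha : x a ≠ 0 := fun h2 => h1 (by simp [h2])
    have hb : y b ≠ 0 := fun h2 => h1 (by simp [h2])
    have hP : W.P X a b ≠ 0 := fun h2 => h1 (by simp [h2])
    have h3 := hx a ha
    have h4 := hy b hb
    have h5 := W.P_deg X a b hP
    omega
  pair_left X x h := by
    have h1 : x ᵥ* W.P X = 0 := by
      funext b
      have h2 := h (Pi.single b 1)
      rw [Matrix.toLinearMap₂'_apply', ] at h2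
      rw [Matrix.dotProduct_mulVec, dotProduct_single_one] at h2
      exact h2
    have h2 := congrArg (fun v => v ᵥ* (W.P X)⁻¹) h1
    simp only [Matrix.vecMul_vecMul, Matrix.mul_nonsing_inv _ (W.inv X), Matrix.vecMul_one,
      Matrix.zero_vecMul] at h2
    exact h2
  pair_right X y h := by
    have h1 : W.P X *ᵥ y = 0 := by
      funext b
      have h2 := h (Pi.single b 1)
      rw [Matrix.toLinearMap₂'_apply', single_one_dotProduct] at h2
      exact h2
    have h2 := congrArg (fun v => (W.P X)⁻¹ *ᵥ v) h1
    simp only [Matrix.mulVec_mulVec, Matrix.nonsing_inv_mul _ (W.inv X), Matrix.one_mulVec,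
      Matrix.mulVec_zero] at h2
    exact h2
  cyc X Y m :=
    { carrier := {F | LinearMap.toMatrix' F ∈ W.cyc X Y m}
      zero_mem' := by
        show LinearMap.toMatrix' 0 ∈ W.cyc X Y m
        rw [map_zero]
        exact W.zero X Y m
      add_mem' := by
        intro f g hf hg
        show LinearMap.toMatrix' (f + g) ∈ W.cyc X Y m
        rw [map_add]
        exact W.add X Y m _ hf _ hg
      neg_mem' := by
        intro f hf
        show LinearMap.toMatrix' (-f) ∈ W.cyc X Y m
        have h1 := W.smul X Y m (-1) _ hf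
        rw [map_neg]
        have h2 : ((-1 : ℚ) : K) = -1 := by push_cast; rfl
        rw [h2, neg_one_smul] at h1
        exact h1 }
  rat X Y m q f hf := by
    show LinearMap.toMatrix' ((q : K) • f) ∈ W.cyc X Y m
    rw [map_smul]
    exact W.smul X Y m q _ hf
  deg X Y m f hf i x hx := by
    have hf' : LinearMap.toMatrix' f ∈ W.cyc X Y m := hf
    intro b hb
    have h1 : f x = LinearMap.toMatrix' f *ᵥ x := by
      rw [LinearMap.toMatrix'_mulVec]
    rw [h1] at hb
    have h2 : ∃ a, LinearMap.toMatrix' f b a * x a ≠ 0 := by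
      by_contra h
      push Not at h
      refine hb ?_
      rw [Matrix.mulVec, dotProduct]
      exact Finset.sum_eq_zero fun a _ => h a
    obtain ⟨a, ha⟩ := h2
    have h3 := W.cyc_deg X Y m _ hf' b a (left_ne_zero_of_mul ha)
    have h4 := hx a (right_ne_zero_of_mul ha)
    rw [h3, h4]
  diag X := by
    show LinearMap.toMatrix' LinearMap.id ∈ W.cyc X X (W.dim X)
    rw [LinearMap.toMatrix'_id]
    exact W.diag X
  comp X Y Z m n f hf g hg := by
    show LinearMap.toMatrix' (g ∘ₗ f) ∈ W.cyc X Z (m + n - W.dim Y)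
    rw [LinearMap.toMatrix'_comp]
    exact W.comp X Y Z m n _ hf _ hg
  adj X Y m f hf := by
    have hf' : LinearMap.toMatrix' f ∈ W.cyc X Y m := hf
    obtain ⟨g, hg, h1, h2⟩ := W.adj X Y m _ hf'
    refine ⟨Matrix.toLin' g, ?_, ?_, ?_⟩
    · show LinearMap.toMatrix' (Matrix.toLin' g) ∈ W.cyc Y X m
      rw [LinearMap.toMatrix'_toLin']
      exact hg
    · intro x y
      rw [Matrix.toLinearMap₂'_apply', Matrix.toLinearMap₂'_apply', Matrix.toLin'_apply]
      have h3 : f x = LinearMap.toMatrix' f *ᵥ x := by
        rw [LinearMap.toMatrix'_mulVec]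
      rw [h3, Matrix.mulVec_mulVec, ← h1, ← Matrix.mulVec_mulVec, ← Matrix.vecMul_transpose,
        ← Matrix.dotProduct_mulVec]
    · intro x y
      rw [Matrix.toLinearMap₂'_apply', Matrix.toLinearMap₂'_apply', Matrix.toLin'_apply]
      have h3 : f x = LinearMap.toMatrix' f *ᵥ x := by
        rw [LinearMap.toMatrix'_mulVec]
      rw [h3, Matrix.mulVec_mulVec, ← h2, ← Matrix.mulVec_mulVec, ← Matrix.vecMul_transpose,
        ← Matrix.dotProduct_mulVec]

end Theory

end Pool.Agent.H6.CM
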