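import Mathlib

set_option autoImplicit false

/-!
# Cohomology theories with algebraic correspondences, in homogeneous bases
-/

namespace Pool.Agent.H6.CM

open Matrix

/-- A cohomology theory with algebraic correspondences, with coefficients in the field `K`, in
chosen homogeneous bases:

* `Var`: the (smooth, proper, equidimensional) varieties; `dim`: their dimension;
* `rk X`: the dimension of the total cohomology of `X`, which is identified with `K ^ rk X` by a
  basis of homogeneous elements; `deg X a`: the degree of the basis element `a`, between `0` and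
  `2 dim X`;
* `P X`: the matrix of the Poincaré pairing, which is invertible, and pairs the cohomology of
  degree `i` with that of degree `2 dim X - i`;
* `cyc X Y m`: the matrices of the maps from the cohomology of `X` to the cohomology of `Y` which
  are induced by the cycles of dimension `m` with rational coefficients on `X × Y`; such a map
  raises the degree by `2 (dim Y - m)`. -/
structure Theory (K : Type) [Field K] where
  Var : Type
  dim : Var → ℕ
  rk : Var → ℕ
  deg : ∀ X, Fin (rk X) → ℕ
  P : ∀ X, Matrix (Fin (rk X)) (Fin (rk X)) K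
  cyc : ∀ X Y, ℤ → Set (Matrix (Fin (rk Y)) (Fin (rk X)) K)
  deg_le : ∀ X a, deg X a ≤ 2 * dim X
  inv : ∀ X, IsUnit (P X).det
  P_deg : ∀ X a b, P X a b ≠ 0 → deg X a + deg X b = 2 * dim X
  cyc_deg : ∀ X Y m, ∀ f ∈ cyc X Y m, ∀ b a, f b a ≠ 0 →
    (deg Y b : ℤ) = deg X a + 2 * (dim Y - m)
  /-- the classes of cycles form a rational vector space -/
  zero : ∀ X Y m, 0 ∈ cyc X Y m
  add : ∀ X Y m, ∀ f ∈ cyc X Y m, ∀ g ∈ cyc X Y m, f + g ∈ cyc X Y m
  smul : ∀ X Y m (q : ℚ), ∀ f ∈ cyc X Y m, (q : K) • f ∈ cyc X Y m
  /-- the diagonal induces the identity -/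
  diag : ∀ X, 1 ∈ cyc X X (dim X)
  /-- composition of correspondences -/
  comp : ∀ X Y Z m n, ∀ f ∈ cyc X Y m, ∀ g ∈ cyc Y Z n, g * f ∈ cyc X Z (m + n - dim Y)
  /-- the transpose of a correspondence induces the adjoint for the Poincaré pairing -/
  adj : ∀ X Y m, ∀ f ∈ cyc X Y m, ∃ g ∈ cyc Y X m, fᵀ * P Y = P X * g ∧ gᵀ * P X = P Y * f

variable {K : Type} [Field K]

namespace Theory

variable (W : Theory K)

/-- `f` is zero on the cohomology of odd degree -/
def KillsOdd {X Y : W.Var} (f : Matrix (Fin (W.rk Y)) (Fin (W.rk X)) K) : Prop :=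
  ∀ b a, Odd (W.deg X a) → f b a = 0

/-- `f` is zero on the cohomology of even degree -/
def KillsEven {X Y : W.Var} (f : Matrix (Fin (W.rk Y)) (Fin (W.rk X)) K) : Prop :=
  ∀ b a, Even (W.deg X a) → f b a = 0

/-- the even Künneth projector: the identity on the cohomology of even degree and zero on the
cohomology of odd degree -/
def even (X : W.Var) : Matrix (Fin (W.rk X)) (Fin (W.rk X)) K :=
  Matrix.diagonal fun a => if Even (W.deg X a) then 1 else 0

/-- `C⁺(X)`: the even Künneth projector is the class of a cycle of dimension `dim X` on `X × X` -/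
def Cplus (X : W.Var) : Prop := W.even X ∈ W.cyc X X (W.dim X)

/-- the vector `x` is homogeneous of degree `i` -/
def Hom (X : W.Var) (i : ℕ) (x : Fin (W.rk X) → K) : Prop := ∀ a, x a ≠ 0 → W.deg X a = i

/-- the subspace of the cohomology of `X` which is spanned by the images, under correspondences, of
the groups `Hᵉ(C)` of the varieties `C` of dimension `e`; for `e = 0` this is the span of the
classes of algebraic cycles, for `e = 1` the part coming from the first cohomology of curves -/
def Part (e : ℕ) (X : W.Var) : Submodule K (Fin (W.rk X) → K) :=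
  Submodule.span K {y | ∃ C : W.Var, W.dim C = e ∧ ∃ m : ℤ, ∃ α ∈ W.cyc C X m,
    ∃ x, W.Hom C e x ∧ y = α *ᵥ x}

/-- `x` is orthogonal to `Part e X` -/
def Perp (e : ℕ) (X : W.Var) (x : Fin (W.rk X) → K) : Prop :=
  ∀ l ∈ W.Part e X, l ⬝ᵥ (W.P X *ᵥ x) = 0

/-- Weil's theorems on correspondences between curves, and their (elementary) analogue in
dimension zero: `C⁺` holds for the curves (the varieties of dimension one); if `C` and `D` both have
dimension `e ≤ 1`, `f` is a correspondence of dimension `e` from `C` to `D` (for curves: zero on the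
cohomology of even degree) and `g` is its transpose, then the trace of `g * f` is a rational number,
which is positive unless `f` is zero -/
structure Low : Prop where
  curve : ∀ C : W.Var, W.dim C = 1 → W.Cplus C
  pos : ∀ e : ℕ, e ≤ 1 → ∀ C D : W.Var, W.dim C = e → W.dim D = e → ∀ f ∈ W.cyc C D e,
    (e = 1 → W.KillsEven f) → ∀ g ∈ W.cyc D C e, fᵀ * W.P D = W.P C * g →
    ∃ q : ℚ, 0 ≤ q ∧ (g * f).trace = (q : K) ∧ (q = 0 → f = 0)

/-- every cycle of dimension `m` on `X × Y` factors through varieties of dimension `m` (for smooth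
proper varieties over a perfect field this is de Jong's theorem on alterations: a subvariety of
dimension `m` of `X × Y` is dominated by a smooth proper variety `T` of dimension `m`) -/
def Alterations : Prop :=
  ∀ (X Y : W.Var) (m : ℤ), ∀ f ∈ W.cyc X Y m, f ∈ AddSubgroup.closure
    {f : Matrix (Fin (W.rk Y)) (Fin (W.rk X)) K | ∃ T : W.Var, (W.dim T : ℤ) = m ∧
      ∃ h ∈ W.cyc X T m, ∃ g ∈ W.cyc T Y m, f = g * h}

/-- generated by the correspondences `g * u * h` of `X` with `h ∈ cyc X S (dim S)`,
`u ∈ cyc S T (dim X)`, `g ∈ cyc T X (dim T)`, where either `2 dim S ≤ dim X + e` or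
`dim S + dim T ≤ dim X + e`. For smooth proper varieties these are the classes of the cycles of
dimension `dim X` on `X × X` which are supported on the products `A × B` of closed subsets of `X`
with `2 dim A ≤ dim X + e` or `dim A + dim B ≤ dim X + e` -/
def Thin (e : ℕ) (X : W.Var) : AddSubgroup (Matrix (Fin (W.rk X)) (Fin (W.rk X)) K) :=
  AddSubgroup.closure {f | ∃ S T : W.Var,
    (2 * W.dim S ≤ W.dim X + e ∨ W.dim S + W.dim T ≤ W.dim X + e) ∧
    ∃ h ∈ W.cyc X S (W.dim S), ∃ u ∈ W.cyc S T (W.dim X), ∃ g ∈ W.cyc T X (W.dim T),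
    f = g * (u * h)}

/-- the correspondences of `X` which factor through varieties satisfying `C⁺` -/
def Through (X : W.Var) : AddSubgroup (Matrix (Fin (W.rk X)) (Fin (W.rk X)) K) :=
  AddSubgroup.closure {f | ∃ Y : W.Var, W.Cplus Y ∧ ∃ m n : ℤ, m + n - W.dim Y = W.dim X ∧
    ∃ h ∈ W.cyc X Y m, ∃ g ∈ W.cyc Y X n, f = g * h}

end Theory

end Pool.Agent.H6.CM
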