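import Pool.Agent.H6.CM.Trans

set_option autoImplicit false

/-!
# The two theorems in homogeneous bases
-/

namespace Pool.Agent.H6.CM

open Matrix

variable {K : Type} [Field K]

namespace Theory

variable (W : Theory K)

theorem odd_iff (X : W.Var) (p : (Fin (W.rk X) → K) → Prop) (h0 : p 0) :
    (∀ i : ℤ, Odd i → ∀ x ∈ W.gr X i, p x) ↔ ∀ (i : ℕ) x, Odd i → W.Hom X i x → p x := by
  constructor
  · intro h i x hi hx
    exact h i (by exact_mod_cast hi) x (W.mem_gr_nat.2 hx)
  · intro h i hi x hx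
    by_cases h1 : x = 0
    · rw [h1]
      exact h0
    · have h2 : ∃ a, x a ≠ 0 := by
        by_contra h3
        push Not at h3
        exact h1 (funext h3)
      obtain ⟨a, ha⟩ := h2
      have h3 := hx a ha
      rw [← h3] at hx hi
      exact h _ x (by exact_mod_cast hi) (W.mem_gr_nat.1 hx)

theorem even_iff (X : W.Var) (p : (Fin (W.rk X) → K) → Prop) (h0 : p 0) :
    (∀ i : ℤ, Even i → ∀ x ∈ W.gr X i, p x) ↔ ∀ (i : ℕ) x, Even i → W.Hom X i x → p x := by
  constructor
  · intro h i x hi hx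
    exact h i (by exact_mod_cast hi) x (W.mem_gr_nat.2 hx)
  · intro h i hi x hx
    by_cases h1 : x = 0
    · rw [h1]
      exact h0
    · have h2 : ∃ a, x a ≠ 0 := by
        by_contra h3
        push Not at h3
        exact h1 (funext h3)
      obtain ⟨a, ha⟩ := h2
      have h3 := hx a ha
      rw [← h3] at hx hi
      exact h _ x (by exact_mod_cast hi) (W.mem_gr_nat.1 hx)

theorem cyc_ex (X : W.Var) (p : ((Fin (W.rk X) → K) →ₗ[K] (Fin (W.rk X) → K)) → Prop)
    (q : Matrix (Fin (W.rk X)) (Fin (W.rk X)) K → Prop)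
    (h : ∀ f, p (Matrix.toLin' f) ↔ q f) :
    (∃ F ∈ W.toTheory.cyc X X (W.dim X), p F) ↔ ∃ f ∈ W.cyc X X (W.dim X), q f := by
  constructor
  · rintro ⟨F, hF, h1⟩
    refine ⟨LinearMap.toMatrix' F, hF, (h _).1 ?_⟩
    have h2 : Matrix.toLin' (LinearMap.toMatrix'
      (F : (Fin (W.rk X) → K) →ₗ[K] (Fin (W.rk X) → K))) = F := Matrix.toLin'_toMatrix' _
    exact h2.symm ▸ h1
  · rintro ⟨f, hf, h1⟩
    exact ⟨Matrix.toLin' f, W.cyc_iff'.2 hf, (h f).2 h1⟩

/-- the criteria modulo the level one -/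
theorem tfae_perp [CharZero K] (hW : W.Low) (X : W.Var) :
    [W.Cplus X,
      ∃ c ∈ W.cyc X X (W.dim X), W.KillsEven c ∧
        ∀ i x, Odd i → W.Hom X i x → x - c *ᵥ x ∈ W.Part 1 X,
      ∃ c ∈ W.cyc X X (W.dim X), W.KillsEven c ∧
        ∀ i x, Odd i → W.Hom X i x → W.Perp 1 X x → c *ᵥ x = x,
      ∃ b ∈ W.cyc X X (W.dim X), W.KillsOdd b ∧
        ∀ i x, Even i → W.Hom X i x → x - b *ᵥ x ∈ W.Part 0 X,
      ∃ b ∈ W.cyc X X (W.dim X), W.KillsOdd b ∧
        ∀ i x, Even i → W.Hom X i x → W.Perp 0 X x → b *ᵥ x = x].TFAE := by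
  have h0 := CP.Theory.tfae_perp (W.low_iff hW) X
  have h1 := W.cplus_iff X
  have hp : ∀ (e : ℕ) (x : Fin (W.rk X) → K),
      (∀ l ∈ W.toTheory.Part e X, W.toTheory.pair X l x = 0) ↔ W.Perp e X x := by
    intro e x
    constructor
    · intro h l hl
      exact (W.pair_eq X l x).symm.trans (h l ((W.part_iff e X l).2 hl))
    · intro h l hl
      exact (W.pair_eq X l x).trans (h l ((W.part_iff e X l).1 hl))
  tfae_have 1 ↔ 2 := by
    refine h1.symm.trans ((h0.out 0 1).trans ?_)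
    refine W.cyc_ex X _ _ fun f => and_congr (W.killsEven_iff f) ?_
    constructor
    · intro h
      exact (W.odd_iff X (fun x => x - f *ᵥ x ∈ W.Part 1 X) (by simp)).1
        fun i hi x hx => (W.part_iff 1 X _).1 (h i hi x hx)
    · intro h i hi x hx
      exact (W.part_iff 1 X _).2
        ((W.odd_iff X (fun x => x - f *ᵥ x ∈ W.Part 1 X) (by simp)).2 h i hi x hx)
  tfae_have 1 ↔ 3 := by
    refine h1.symm.trans ((h0.out 0 2).trans ?_)
    refine W.cyc_ex X _ _ fun f => and_congr (W.killsEven_iff f) ?_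
    constructor
    · intro h
      exact (W.odd_iff X (fun x => W.Perp 1 X x → f *ᵥ x = x) (by simp)).1
        fun i hi x hx hq => h i hi x hx ((hp 1 x).2 hq)
    · intro h i hi x hx hq
      exact (W.odd_iff X (fun x => W.Perp 1 X x → f *ᵥ x = x) (by simp)).2 h i hi x hx
        ((hp 1 x).1 hq)
  tfae_have 1 ↔ 4 := by
    refine h1.symm.trans ((h0.out 0 3).trans ?_)
    refine W.cyc_ex X _ _ fun f => and_congr (W.killsOdd_iff f) ?_
    constructor
    · intro h
      exact (W.even_iff X (fun x => x - f *ᵥ x ∈ W.Part 0 X) (by simp)).1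
        fun i hi x hx => (W.part_iff 0 X _).1 (h i hi x hx)
    · intro h i hi x hx
      exact (W.part_iff 0 X _).2
        ((W.even_iff X (fun x => x - f *ᵥ x ∈ W.Part 0 X) (by simp)).2 h i hi x hx)
  tfae_have 1 ↔ 5 := by
    refine h1.symm.trans ((h0.out 0 4).trans ?_)
    refine W.cyc_ex X _ _ fun f => and_congr (W.killsOdd_iff f) ?_
    constructor
    · intro h
      exact (W.even_iff X (fun x => W.Perp 0 X x → f *ᵥ x = x) (by simp)).1
        fun i hi x hx hq => h i hi x hx ((hp 0 x).2 hq)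
    · intro h i hi x hx hq
      exact (W.even_iff X (fun x => W.Perp 0 X x → f *ᵥ x = x) (by simp)).2 h i hi x hx
        ((hp 0 x).1 hq)
  tfae_finish

theorem sub_core {n : ℕ} (b c : Matrix (Fin n) (Fin n) K) :
    LinearMap.toMatrix' (LinearMap.id - Matrix.toLin' b - Matrix.toLin' c) = 1 - b - c := by
  rw [map_sub, map_sub, LinearMap.toMatrix'_toLin', LinearMap.toMatrix'_toLin',
      LinearMap.toMatrix'_id]

theorem sub_core' {n : ℕ} (f : (Fin n → K) →ₗ[K] (Fin n → K)) :
    LinearMap.toMatrix' (LinearMap.id - f) = 1 - LinearMap.toMatrix' f := by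
  rw [map_sub, LinearMap.toMatrix'_id]

/-- the criteria modulo thin correspondences -/
theorem tfae_thin (hA : W.Alterations) (e : ℕ) (hlow : ∀ T : W.Var, W.dim T ≤ e → W.Cplus T)
    (X : W.Var) :
    [W.Cplus X,
      ∃ b ∈ W.cyc X X (W.dim X), ∃ c ∈ W.cyc X X (W.dim X), W.KillsOdd b ∧ W.KillsEven c ∧
        1 - b - c ∈ W.Thin e X,
      ∃ f ∈ W.Through X, 1 - f ∈ W.Thin e X].TFAE := by
  have h0 := CP.Theory.tfae_thin (W.alterations_iff hA) (e := e)
    (fun T hT => (W.cplus_iff T).2 (hlow T hT)) X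
  have h1 := W.cplus_iff X
  tfae_have 1 ↔ 2 := by
    refine h1.symm.trans ((h0.out 0 1).trans ?_)
    refine W.cyc_ex X _ _ fun b => W.cyc_ex X _ _ fun c => and_congr (W.killsOdd_iff b)
      (and_congr (W.killsEven_iff c) ((W.thin_iff e X _).trans ?_))
    exact iff_of_eq (congrArg (· ∈ W.Thin e X) (sub_core b c))
  tfae_have 1 ↔ 3 := by
    refine h1.symm.trans ((h0.out 0 2).trans ?_)
    constructor
    · rintro ⟨f, hf, h4⟩
      exact ⟨LinearMap.toMatrix' f, (W.through_iff X f).1 hf,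
        (iff_of_eq (congrArg (· ∈ W.Thin e X) (sub_core' f))).1 ((W.thin_iff e X _).1 h4)⟩
    · rintro ⟨f, hf, h4⟩
      refine ⟨Matrix.toLin' f, (W.through_iff X _).2 ?_, (W.thin_iff e X _).2 ?_⟩
      · rw [LinearMap.toMatrix'_toLin']
        exact hf
      · refine (iff_of_eq (congrArg (· ∈ W.Thin e X) (sub_core' (Matrix.toLin' f)))).2 ?_
        rw [LinearMap.toMatrix'_toLin']
        exact h4
  tfae_finish

end Theory

end Pool.Agent.H6.CM
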