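import Pool.Agent.H6.CM.Bridge

set_option autoImplicit false

/-!
# The two theorems in homogeneous bases
-/

namespace Pool.Agent.H6.CM

open Matrix

variable {K : Type} [Field K]

namespace Theory

variable (W : Theory K)

theorem closure_iff {m n : ℕ} {S : Set ((Fin n → K) →ₗ[K] (Fin m → K))}
    {T : Set (Matrix (Fin m) (Fin n) K)}
    (h : ∀ F, F ∈ S ↔ LinearMap.toMatrix' F ∈ T) (F : (Fin n → K) →ₗ[K] (Fin m → K)) :
    F ∈ AddSubgroup.closure S ↔ LinearMap.toMatrix' F ∈ AddSubgroup.closure T := by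
  constructor
  · intro h1
    have h2 : AddSubgroup.closure S ≤ (AddSubgroup.closure T).comap
        (LinearMap.toMatrix' : ((Fin n → K) →ₗ[K] (Fin m → K)) ≃ₗ[K] _).toAddEquiv.toAddMonoidHom := by
      rw [AddSubgroup.closure_le]
      intro G hG
      exact AddSubgroup.subset_closure ((h G).1 hG)
    exact h2 h1
  · intro h1
    have h2 : AddSubgroup.closure T ≤ (AddSubgroup.closure S).comap
        (LinearMap.toMatrix' :
          ((Fin n → K) →ₗ[K] (Fin m → K)) ≃ₗ[K] _).symm.toAddEquiv.toAddMonoidHom := by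
      rw [AddSubgroup.closure_le]
      intro G hG
      refine AddSubgroup.subset_closure ((h _).2 ?_)
      show LinearMap.toMatrix' (LinearMap.toMatrix'.symm G) ∈ T
      rw [LinearEquiv.apply_symm_apply]
      exact hG
    have h3 : LinearMap.toMatrix'.symm (LinearMap.toMatrix' F) ∈ AddSubgroup.closure S := h2 h1
    rwa [LinearEquiv.symm_apply_apply] at h3

theorem cyc_iff {X Y : W.Var} {m : ℤ} {F : (Fin (W.rk X) → K) →ₗ[K] (Fin (W.rk Y) → K)} :
    F ∈ W.toTheory.cyc X Y m ↔ LinearMap.toMatrix' F ∈ W.cyc X Y m := Iff.rfl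

theorem cyc_iff' {X Y : W.Var} {m : ℤ} {f : Matrix (Fin (W.rk Y)) (Fin (W.rk X)) K} :
    Matrix.toLin' f ∈ W.toTheory.cyc X Y m ↔ f ∈ W.cyc X Y m := by
  show LinearMap.toMatrix' (Matrix.toLin' f) ∈ W.cyc X Y m ↔ _
  rw [LinearMap.toMatrix'_toLin']

theorem zero_iff {X Y : W.Var} (p : ℤ → Prop)
    (f : Matrix (Fin (W.rk Y)) (Fin (W.rk X)) K) :
    (∀ i, p i → ∀ x ∈ W.gr X i, f *ᵥ x = 0) ↔ ∀ b a, p (W.deg X a) → f b a = 0 := by
  constructor
  · intro h b a ha
    have h1 := h _ ha _ (W.single_mem a 1)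
    rw [Matrix.mulVec_single_one] at h1
    exact congrFun h1 b
  · intro h i hi x hx
    funext b
    rw [Matrix.mulVec, dotProduct]
    refine Finset.sum_eq_zero fun a _ => ?_
    by_cases h1 : x a = 0
    · rw [h1, mul_zero]
    · rw [h b a (by rw [hx a h1]; exact hi), zero_mul]

theorem killsOdd_iff {X Y : W.Var} (f : Matrix (Fin (W.rk Y)) (Fin (W.rk X)) K) :
    W.toTheory.KillsOdd (X := X) (Y := Y) (Matrix.toLin' f) ↔ W.KillsOdd f := by
  have h := W.zero_iff (fun i => Odd i) f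
  simp only [Int.odd_coe_nat] at h
  exact h

theorem killsEven_iff {X Y : W.Var} (f : Matrix (Fin (W.rk Y)) (Fin (W.rk X)) K) :
    W.toTheory.KillsEven (X := X) (Y := Y) (Matrix.toLin' f) ↔ W.KillsEven f := by
  have h := W.zero_iff (fun i => Even i) f
  simp only [Int.even_coe_nat] at h
  exact h

theorem cplus_core (X : W.Var) :
    (∃ F : (Fin (W.rk X) → K) →ₗ[K] (Fin (W.rk X) → K),
      LinearMap.toMatrix' F ∈ W.cyc X X (W.dim X) ∧ (∀ i, Even i → ∀ x ∈ W.gr X i, F x = x) ∧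
      ∀ i, Odd i → ∀ x ∈ W.gr X i, F x = 0) ↔ W.Cplus X := by
  constructor
  · rintro ⟨F, hF, h1, h2⟩
    have h3 : LinearMap.toMatrix' F = W.even X := by
      ext b a
      have h5 : LinearMap.toMatrix' F b a = F (Pi.single a 1) b := by
        have h6 : F (Pi.single a 1) = LinearMap.toMatrix' F *ᵥ (Pi.single a 1) := by
          rw [LinearMap.toMatrix'_mulVec]
        rw [h6, Matrix.mulVec_single_one]
        rfl
      rw [h5, even, Matrix.diagonal_apply]
      by_cases h : Even (W.deg X a)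
      · rw [h1 (W.deg X a) (by exact_mod_cast h) (Pi.single a 1) (W.single_mem a 1),
          Pi.single_apply]
        by_cases hab : b = a
        · simp [hab, h]
        · simp [hab]
      · rw [h2 (W.deg X a) (by exact_mod_cast Nat.not_even_iff_odd.1 h) (Pi.single a 1)
          (W.single_mem a 1)]
        by_cases hab : b = a
        · simp [hab, h]
        · simp [hab]
    show W.even X ∈ W.cyc X X (W.dim X)
    rw [← h3]
    exact hF
  · intro h
    refine ⟨Matrix.toLin' (W.even X), (W.cyc_iff').2 h, ?_, ?_⟩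
    · intro i hi x hx
      rw [Matrix.toLin'_apply]
      funext b
      rw [even, Matrix.mulVec_diagonal]
      by_cases h1 : x b = 0
      · rw [h1, mul_zero]
      · have h2 : Even (W.deg X b) := by
          have h3 := hx b h1
          rw [← h3] at hi
          exact_mod_cast hi
        rw [if_pos h2, one_mul]
    · have h1 : W.KillsOdd (W.even X) := by
        intro b a ha
        rw [even, Matrix.diagonal_apply]
        by_cases hab : b = a
        · rw [if_pos hab, hab, if_neg (Nat.not_even_iff_odd.2 ha)]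
        · rw [if_neg hab]
      exact (W.killsOdd_iff _).2 h1

theorem cplus_iff (X : W.Var) : W.toTheory.Cplus X ↔ W.Cplus X := W.cplus_core X

theorem part_iff (e : ℕ) (X : W.Var) (y : Fin (W.rk X) → K) :
    y ∈ W.toTheory.Part e X ↔ y ∈ W.Part e X := by
  suffices h : W.toTheory.Part e X = W.Part e X from
    ⟨fun h1 => (le_of_eq h) h1, fun h1 => (le_of_eq h.symm) h1⟩
  · show Submodule.span K {y : Fin (W.rk X) → K | ∃ C : W.Var, W.dim C = e ∧ ∃ m : ℤ,
      ∃ α : (Fin (W.rk C) → K) →ₗ[K] (Fin (W.rk X) → K), LinearMap.toMatrix' α ∈ W.cyc C X m ∧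
      ∃ x ∈ W.gr C e, y = α x} = _
    rw [Part]
    congr 1
    ext y
    constructor
    · rintro ⟨C, hC, m, α, hα, x, hx, h⟩
      refine ⟨C, hC, m, _, hα, x, (W.mem_gr_nat).1 hx, ?_⟩
      rw [h, LinearMap.toMatrix'_mulVec]
    · rintro ⟨C, hC, m, α, hα, x, hx, h⟩
      refine ⟨C, hC, m, Matrix.toLin' α, (W.cyc_iff').2 hα, x, (W.mem_gr_nat).2 hx, ?_⟩
      rw [h, Matrix.toLin'_apply]

theorem adj_core {X Y : W.Var} (f : Matrix (Fin (W.rk Y)) (Fin (W.rk X)) K)
    (g : Matrix (Fin (W.rk X)) (Fin (W.rk Y)) K)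
    (h : ∀ (x : Fin (W.rk X) → K) (y : Fin (W.rk Y) → K),
      (f *ᵥ x) ⬝ᵥ (W.P Y *ᵥ y) = x ⬝ᵥ (W.P X *ᵥ (g *ᵥ y))) : fᵀ * W.P Y = W.P X * g := by
  ext a b
  have h1 := h (Pi.single a 1) (Pi.single b 1)
  rw [← Matrix.vecMul_transpose, ← Matrix.dotProduct_mulVec, Matrix.mulVec_mulVec,
    Matrix.mulVec_mulVec, single_one_dotProduct, single_one_dotProduct,
    Matrix.mulVec_single_one, Matrix.mulVec_single_one] at h1
  exact h1

theorem low_core (h : W.Low) (e : ℕ) (he : e ≤ 1) (C D : W.Var) (hC : W.dim C = e)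
    (hD : W.dim D = e) (F : (Fin (W.rk C) → K) →ₗ[K] (Fin (W.rk D) → K))
    (hF : LinearMap.toMatrix' F ∈ W.cyc C D e)
    (hk : e = 1 → ∀ i, Even i → ∀ x ∈ W.gr C i, F x = 0)
    (G : (Fin (W.rk D) → K) →ₗ[K] (Fin (W.rk C) → K)) (hG : LinearMap.toMatrix' G ∈ W.cyc D C e)
    (hadj : ∀ x y, F x ⬝ᵥ (W.P D *ᵥ y) = x ⬝ᵥ (W.P C *ᵥ G y)) :
    ∃ q : ℚ, 0 ≤ q ∧ LinearMap.trace K (Fin (W.rk C) → K) (G ∘ₗ F) = (q : K) ∧
      (q = 0 → F = 0) := by
  have h1 : (LinearMap.toMatrix' F)ᵀ * W.P D = W.P C * LinearMap.toMatrix' G := by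
    apply W.adj_core
    intro x y
    rw [LinearMap.toMatrix'_mulVec, LinearMap.toMatrix'_mulVec]
    exact hadj x y
  obtain ⟨q, hq, h2, h3⟩ := h.pos e he C D hC hD (LinearMap.toMatrix' F) hF
    (fun he => by
      have h4 := hk he
      have h5 := (W.zero_iff (X := C) (Y := D) (fun i => Even i) (LinearMap.toMatrix' F)).1
        (fun i hi x hx => by
          rw [LinearMap.toMatrix'_mulVec]
          exact h4 i hi x hx)
      intro b a ha
      exact h5 b a (by exact_mod_cast ha)) (LinearMap.toMatrix' G) hG h1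
  refine ⟨q, hq, ?_, ?_⟩
  · rw [← h2, ← LinearMap.toMatrix'_comp]
    exact (LinearMap.trace_eq_matrix_trace K (Pi.basisFun K (Fin (W.rk C))) _)
  · intro h0
    have h4 := h3 h0
    exact (LinearMap.toMatrix' : ((Fin (W.rk C) → K) →ₗ[K] (Fin (W.rk D) → K)) ≃ₗ[K] _).injective
      (h4.trans (map_zero _).symm)

theorem pair_eq (X : W.Var) (a b : Fin (W.rk X) → K) :
    W.toTheory.pair X a b = a ⬝ᵥ (W.P X *ᵥ b) := Matrix.toLinearMap₂'_apply' _ _ _

theorem low_iff (h : W.Low) : W.toTheory.Low :=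
  ⟨fun C hC => (W.cplus_iff C).2 (h.curve C hC),
    fun e he C D hC hD F hF hk G hG hadj =>
      W.low_core h e he C D hC hD F hF hk G hG fun x y =>
        (W.pair_eq D (F x) y).symm.trans ((hadj x y).trans (W.pair_eq C x (G y)))⟩

theorem comp_eq {l m n : ℕ} (b : (Fin m → K) →ₗ[K] (Fin l → K))
    (a : (Fin n → K) →ₗ[K] (Fin m → K)) (G : (Fin n → K) →ₗ[K] (Fin l → K)) (h : G = b ∘ₗ a) :
    LinearMap.toMatrix' G = LinearMap.toMatrix' b * LinearMap.toMatrix' a := by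
  rw [h, LinearMap.toMatrix'_comp]

theorem comp_eq3 {l m m' n : ℕ} (b : (Fin m → K) →ₗ[K] (Fin l → K))
    (u : (Fin m' → K) →ₗ[K] (Fin m → K))
    (a : (Fin n → K) →ₗ[K] (Fin m' → K)) (G : (Fin n → K) →ₗ[K] (Fin l → K))
    (h : G = b ∘ₗ (u ∘ₗ a)) :
    LinearMap.toMatrix' G =
      LinearMap.toMatrix' b * (LinearMap.toMatrix' u * LinearMap.toMatrix' a) := by
  rw [h, LinearMap.toMatrix'_comp, LinearMap.toMatrix'_comp]

theorem alterations_iff (h : W.Alterations) : W.toTheory.Alterations := by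
  intro X Y m F hF
  refine (closure_iff (m := W.rk Y) (n := W.rk X) (K := K) ?_ F).2 (h X Y m _ hF)
  intro G
  constructor
  · rintro ⟨T, hT, a, ha, b, hb, h1⟩
    exact ⟨T, hT, _, ha, _, hb, comp_eq (l := W.rk Y) (m := W.rk T) (n := W.rk X) b a G h1⟩
  · rintro ⟨T, hT, a, ha, b, hb, h1⟩
    refine ⟨T, hT, Matrix.toLin' a, (W.cyc_iff').2 ha, Matrix.toLin' b, (W.cyc_iff').2 hb, ?_⟩
    have h2 := congrArg Matrix.toLin' h1
    rw [Matrix.toLin'_mul, Matrix.toLin'_toMatrix'] at h2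
    exact h2

theorem thin_iff (e : ℕ) (X : W.Var) (F : (Fin (W.rk X) → K) →ₗ[K] (Fin (W.rk X) → K)) :
    F ∈ W.toTheory.Thin e X ↔ LinearMap.toMatrix' F ∈ W.Thin e X := by
  refine closure_iff (m := W.rk X) (n := W.rk X) (K := K) ?_ F
  intro G
  constructor
  · rintro ⟨S, T, h0, a, ha, u, hu, b, hb, h1⟩
    exact ⟨S, T, h0, _, ha, _, hu, _, hb,
      comp_eq3 (l := W.rk X) (m := W.rk T) (m' := W.rk S) (n := W.rk X) b u a G h1⟩
  · rintro ⟨S, T, h0, a, ha, u, hu, b, hb, h1⟩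
    refine ⟨S, T, h0, Matrix.toLin' a, (W.cyc_iff').2 ha, Matrix.toLin' u, (W.cyc_iff').2 hu,
      Matrix.toLin' b, (W.cyc_iff').2 hb, ?_⟩
    have h2 := congrArg Matrix.toLin' h1
    rw [Matrix.toLin'_mul, Matrix.toLin'_mul, Matrix.toLin'_toMatrix'] at h2
    exact h2

theorem through_iff (X : W.Var) (F : (Fin (W.rk X) → K) →ₗ[K] (Fin (W.rk X) → K)) :
    F ∈ W.toTheory.Through X ↔ LinearMap.toMatrix' F ∈ W.Through X := by
  refine closure_iff (m := W.rk X) (n := W.rk X) (K := K) ?_ F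
  intro G
  constructor
  · rintro ⟨Y, hY, m, n, h0, a, ha, b, hb, h1⟩
    exact ⟨Y, (W.cplus_iff Y).1 hY, m, n, h0, _, ha, _, hb,
      comp_eq (l := W.rk X) (m := W.rk Y) (n := W.rk X) b a G h1⟩
  · rintro ⟨Y, hY, m, n, h0, a, ha, b, hb, h1⟩
    refine ⟨Y, (W.cplus_iff Y).2 hY, m, n, h0, Matrix.toLin' a, (W.cyc_iff').2 ha,
      Matrix.toLin' b, (W.cyc_iff').2 hb, ?_⟩
    have h2 := congrArg Matrix.toLin' h1
    rw [Matrix.toLin'_mul, Matrix.toLin'_toMatrix'] at h2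
    exact h2

end Theory

end Pool.Agent.H6.CM
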